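import Pool.Agent.helper23.CS.Spec

/-!
# Project cs (MP_7c3fb3_pr), row GUN
-/

open Finset Filter Topology MeasureTheory CU

namespace CS

theorem GUN (hGEX : GEX_stmt) (hVE : CU.VE_stmt) : GUN_stmt := by
  intro d β m hm h hU
  obtain ⟨μ, U, hU1, hμ, h1⟩ := hGEX d β (fun _ => true)
  obtain ⟨ν, U', hU2, hν, h2⟩ := hGEX d β (fun _ => false)
  have e : μ = ν := hU μ ν hμ hν
  have a1 : m ≤ ∫ σ : ZConf d, sg (σ 0) ∂μ := by
    refine ge_of_tendsto (h1 0) (Eventually.of_forall fun L => ?_)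
    exact h L
  have a2 : ∫ σ : ZConf d, sg (σ 0) ∂ν ≤ -m := by
    refine le_of_tendsto (h2 0) (Eventually.of_forall fun L => ?_)
    have h3 := h L
    unfold ML at h3
    have h4 := hVE d β (zBox L (0 : ZSite d)) 0
    rw [h4]
    linarith
  rw [e] at a1
  linarith

end CS
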